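import Mathlib

/-!
# The trace of a square matrix of small rank
-/

set_option autoImplicit false

namespace Pool.Agent.X246.LRS

open Finset

theorem finrank_span_rows {I J : Type} [Fintype I] [Fintype J] (C : Matrix I J ℝ) :
    Module.finrank ℝ (Submodule.span ℝ
      (Set.range fun i => (WithLp.toLp 2 (C i) : EuclideanSpace ℝ J))) = C.rank := by
  classical
  rw [Matrix.rank_eq_finrank_span_row]
  let e := (WithLp.linearEquiv 2 ℝ (J → ℝ)).symm
  have h : Submodule.span ℝ (Set.range fun i => (WithLp.toLp 2 (C i) : EuclideanSpace ℝ J)) =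
      (Submodule.span ℝ (Set.range C.row)).map (e : (J → ℝ) →ₗ[ℝ] EuclideanSpace ℝ J) := by
    rw [Submodule.map_span, ← Set.range_comp]
    rfl
  rw [h]
  exact LinearEquiv.finrank_map_eq e _

/-- `(tr C)² ≤ rank C * ‖C‖²` -/
theorem trace_sq_le {I : Type} [Fintype I] (C : Matrix I I ℝ) :
    (∑ i, C i i) ^ 2 ≤ C.rank * ∑ i, ∑ j, C i j ^ 2 := by
  classical
  let v : I → EuclideanSpace ℝ I := fun i => WithLp.toLp 2 (C i)
  let W := Submodule.span ℝ (Set.range v)
  have hW : Module.finrank ℝ W = C.rank := finrank_span_rows C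
  let b := stdOrthonormalBasis ℝ W
  let w : I → W := fun i => ⟨v i, Submodule.subset_span ⟨i, rfl⟩⟩
  have h1 : ∀ i, C i i = ∑ a, b.repr (w i) a * ((b a : W) : EuclideanSpace ℝ I) i := by
    intro i
    have h := congrArg (fun u : W => (u : EuclideanSpace ℝ I) i) (b.sum_repr (w i))
    simp only [AddSubmonoidClass.coe_finset_sum, Submodule.coe_smul] at h
    rw [WithLp.ofLp_sum] at h
    simp only [WithLp.ofLp_smul, Finset.sum_apply, Pi.smul_apply, smul_eq_mul] at h
    exact h.symm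
  have h2 : ∀ i, ∑ a, (b.repr (w i) a) ^ 2 = ∑ j, C i j ^ 2 := by
    intro i
    have e1 : ‖w i‖ ^ 2 = ∑ j, C i j ^ 2 := by
      have : ‖w i‖ = ‖v i‖ := rfl
      rw [this, EuclideanSpace.norm_sq_eq]
      refine sum_congr rfl fun j _ => ?_
      rw [Real.norm_eq_abs, sq_abs]
    have e2 : ‖b.repr (w i)‖ ^ 2 = ∑ a, (b.repr (w i) a) ^ 2 := by
      rw [EuclideanSpace.norm_sq_eq]
      refine sum_congr rfl fun j _ => ?_
      rw [Real.norm_eq_abs, sq_abs]
    rw [← e1, ← e2, LinearIsometryEquiv.norm_map]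
  have h3 : ∀ a, ∑ i, (((b a : W) : EuclideanSpace ℝ I) i) ^ 2 = 1 := by
    intro a
    have e1 : ‖((b a : W) : EuclideanSpace ℝ I)‖ ^ 2 = 1 := by
      have : ‖((b a : W) : EuclideanSpace ℝ I)‖ = ‖b a‖ := rfl
      rw [this, b.norm_eq_one]
      norm_num
    rw [← e1, EuclideanSpace.norm_sq_eq]
    refine sum_congr rfl fun j _ => ?_
    rw [Real.norm_eq_abs, sq_abs]
  have h4 : (∑ i, C i i) = ∑ p : I × Fin (Module.finrank ℝ W),
      b.repr (w p.1) p.2 * ((b p.2 : W) : EuclideanSpace ℝ I) p.1 := by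
    rw [Fintype.sum_prod_type]
    exact sum_congr rfl fun i _ => h1 i
  rw [h4]
  refine (Finset.sum_mul_sq_le_sq_mul_sq _ _ _).trans ?_
  rw [Fintype.sum_prod_type, Fintype.sum_prod_type_right]
  simp only [h2, h3]
  rw [sum_const, card_univ, Fintype.card_fin, nsmul_eq_mul, mul_one, hW]
  exact le_of_eq (mul_comm _ _)

end Pool.Agent.X246.LRS
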