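import Pool.Agent.X246.RSH.Core

/-!
# Hypergraphs without four edges on few vertices and the rank of the shadow
-/

set_option autoImplicit false

namespace Pool.Agent.X246.LRS

open Finset

section matrix

variable {K : Type} [Field K]

/-- a matrix of rank `ρ` is a sum of `ρ` matrices of rank one -/
theorem factor {X Y : Type} [Fintype X] [Fintype Y] (W : Matrix X Y K) :
    ∃ (B : Finset X) (c : X → X → K), B.card ≤ W.rank ∧
      ∀ x y, W x y = ∑ b ∈ B, c x b * W b y := by
  obtain ⟨B, -, hB, hs⟩ := Pool.Agent.X246.RSH.rows_basis W Set.univ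
  have h : ∀ x : X, ∃ c : X → K, ∑ b ∈ B, c b • W.row b = W.row x := fun x =>
    (Submodule.mem_span_image_finset_iff_exists_fun' K).1 (hs x (Set.mem_univ x))
  choose c hc using h
  refine ⟨B, c, hB, fun x y => ?_⟩
  have h1 := congrFun (hc x) y
  rw [Finset.sum_apply] at h1
  exact h1.symm

/-- the rank of an entrywise product -/
theorem rank_hadamard {X Y : Type} [Fintype X] [Fintype Y] (W Z : Matrix X Y K) :
    (Matrix.of fun x y => W x y * Z x y).rank ≤ W.rank * Z.rank := by
  classical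
  obtain ⟨B, c, hB, hW⟩ := factor W
  obtain ⟨B', c', hB', hZ⟩ := factor Z
  have h1 : (Matrix.of fun x y => W x y * Z x y) =
      (Matrix.of fun (x : X) (p : B × B') => c x p.1 * c' x p.2) *
        (Matrix.of fun (p : B × B') (y : Y) => W p.1 y * Z p.2 y) := by
    ext x y
    simp only [Matrix.of_apply, Matrix.mul_apply]
    rw [Fintype.sum_prod_type, hW x y, hZ x y, Finset.sum_mul_sum, ← Finset.sum_coe_sort B]
    refine Finset.sum_congr rfl fun b _ => ?_
    rw [← Finset.sum_coe_sort B']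
    refine Finset.sum_congr rfl fun b' _ => ?_
    ring
  rw [h1]
  refine (Matrix.rank_mul_le_left _ _).trans ((Matrix.rank_le_card_width _).trans ?_)
  rw [Fintype.card_prod, Fintype.card_coe, Fintype.card_coe]
  exact Nat.mul_le_mul hB hB'

/-- a square matrix with nonzero diagonal and small rank has a nonzero entry off the diagonal -/
theorem exists_ne {I : Type} [Fintype I] (C : Matrix I I K) (hd : ∀ i, C i i ≠ 0)
    (hr : C.rank < Fintype.card I) : ∃ i j, i ≠ j ∧ C i j ≠ 0 := by
  classical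
  by_contra hcon
  push Not at hcon
  have h1 : C = Matrix.diagonal fun i => C i i := by
    ext i j
    by_cases h : i = j
    · subst h
      simp
    · rw [Matrix.diagonal_apply_ne _ h, hcon i j h]
  have h2 : C.rank = Fintype.card I := by
    apply Matrix.rank_of_isUnit
    rw [Matrix.isUnit_iff_isUnit_det, h1, Matrix.det_diagonal, isUnit_iff_ne_zero,
      Finset.prod_ne_zero_iff]
    intro i _
    simpa using hd i
  omega

/-- a pair `i ≠ j` with `W (x i) (y j) ≠ 0` -/
theorem one_arc {V I : Type} [Fintype V] [Fintype I] (W : Matrix V V K) (x y : I → V)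
    (hd : ∀ i, W (x i) (y i) ≠ 0) (hr : W.rank < Fintype.card I) :
    ∃ i j, i ≠ j ∧ W (x i) (y j) ≠ 0 :=
  exists_ne (W.submatrix x y) hd ((Matrix.rank_submatrix_le _ _ _).trans_lt hr)

/-- a pair `i ≠ j` with `W (x i) (y j) ≠ 0` and `W (x j) (y i) ≠ 0` -/
theorem two_arcs {V I : Type} [Fintype V] [Fintype I] (W : Matrix V V K) (x y : I → V)
    (hd : ∀ i, W (x i) (y i) ≠ 0) (hr : W.rank ^ 2 < Fintype.card I) :
    ∃ i j, i ≠ j ∧ W (x i) (y j) ≠ 0 ∧ W (x j) (y i) ≠ 0 := by
  have h1 : (W.submatrix x y).rank ≤ W.rank := Matrix.rank_submatrix_le _ _ _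
  have h2 : ((W.submatrix x y).transpose).rank ≤ W.rank := by
    rw [Matrix.rank_transpose]
    exact h1
  obtain ⟨i, j, hij, h⟩ := exists_ne
    (Matrix.of fun i j => (W.submatrix x y) i j * ((W.submatrix x y).transpose) i j)
    (fun i => mul_ne_zero (hd i) (hd i))
    (by
      refine lt_of_le_of_lt ((rank_hadamard _ _).trans (Nat.mul_le_mul h1 h2)) ?_
      rwa [← pow_two])
  exact ⟨i, j, hij, left_ne_zero_of_mul h, right_ne_zero_of_mul h⟩

end matrix

/-! ### Hypergraphs -/

variable {V : Type} [DecidableEq V]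

/-- every edge of `H` has exactly `r` vertices -/
def Unif (r : ℕ) (H : Finset (Finset V)) : Prop := ∀ f ∈ H, f.card = r

/-- the union of any `e` distinct edges of `H` has more than `v` vertices -/
def Free (H : Finset (Finset V)) (v e : ℕ) : Prop :=
  ∀ S ⊆ H, S.card = e → v < (S.biUnion id).card

theorem codeg {r e : ℕ} (hr : 2 ≤ r) {H : Finset (Finset V)} (hH : Unif r H)
    (hfree : Free H ((r - 2) * e + 3) e) {x y : V} (hxy : x ≠ y) (he : 1 ≤ e) :
    (H.filter (fun f => x ∈ f ∧ y ∈ f)).card ≤ e - 1 := by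
  by_contra hcon
  push Not at hcon
  obtain ⟨S, hS, hSe⟩ := exists_subset_card_eq (show e ≤ _ by omega :
    e ≤ (H.filter (fun f => x ∈ f ∧ y ∈ f)).card)
  have h1 := hfree S (hS.trans (filter_subset _ _)) hSe
  have h2 : S.biUnion id ⊆ {x, y} ∪ S.biUnion (fun f => (f.erase x).erase y) := by
    intro z hz
    rw [mem_biUnion] at hz
    obtain ⟨f, hf, hzf⟩ := hz
    simp only [id_eq] at hzf
    by_cases hzx : z = x
    · simp [hzx]
    by_cases hzy : z = y
    · simp [hzy]
    refine mem_union_right _ (mem_biUnion.mpr ⟨f, hf, ?_⟩)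
    simp [hzx, hzy, hzf]
  have h3 : (S.biUnion (fun f => (f.erase x).erase y)).card ≤ S.card * (r - 2) := by
    apply card_biUnion_le_card_mul
    intro f hf
    have h4 := hS hf
    rw [mem_filter] at h4
    rw [card_erase_of_mem (mem_erase.2 ⟨hxy.symm, h4.2.2⟩), card_erase_of_mem h4.2.1, hH f h4.1]
    omega
  have h4 := (card_le_card h2).trans (card_union_le _ _)
  have h5 : ({x, y} : Finset V).card ≤ 2 := card_le_two
  rw [hSe] at h3
  have h6 : e * (r - 2) = (r - 2) * e := mul_comm _ _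
  omega

/-- a maximal matching in the link of `z` -/
theorem exists_matching (H : Finset (Finset V)) (z : V) :
    ∃ M ⊆ H.filter (fun f => z ∈ f), (∀ S ∈ M, ∀ T ∈ M, S ≠ T → ∀ v ∈ S, v ∈ T → v = z) ∧
      ∀ f ∈ H, z ∈ f → f.card ≠ 1 → ∃ S ∈ M, ∃ v ∈ S, v ≠ z ∧ v ∈ f := by
  classical
  obtain ⟨M, hM, hmax⟩ := exists_max_image
    ((H.filter (fun f => z ∈ f)).powerset.filter fun M =>
      ∀ S ∈ M, ∀ T ∈ M, S ≠ T → ∀ v ∈ S, v ∈ T → v = z) card ⟨∅, by simp⟩
  rw [mem_filter, mem_powerset] at hM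
  refine ⟨M, hM.1, hM.2, fun f hf hz hf1 => ?_⟩
  obtain ⟨w, hwf, hwz⟩ : ∃ w ∈ f, w ≠ z := by
    by_contra hcon
    push Not at hcon
    apply hf1
    rw [card_eq_one]
    exact ⟨z, eq_singleton_iff_unique_mem.2 ⟨hz, hcon⟩⟩
  by_cases hfM : f ∈ M
  · exact ⟨f, hfM, w, hwf, hwz, hwf⟩
  by_contra hcon
  push Not at hcon
  have h1 : insert f M ∈ (H.filter (fun f => z ∈ f)).powerset.filter fun M =>
      ∀ S ∈ M, ∀ T ∈ M, S ≠ T → ∀ v ∈ S, v ∈ T → v = z := by
    rw [mem_filter, mem_powerset]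
    refine ⟨insert_subset (mem_filter.2 ⟨hf, hz⟩) hM.1, fun S hS T hT hST v hvS hvT => ?_⟩
    rw [mem_insert] at hS hT
    rcases hS with rfl | hS
    · rcases hT with rfl | hT
      · exact absurd rfl hST
      · by_contra hv
        exact hcon T hT v hvT hv hvS
    · rcases hT with rfl | hT
      · by_contra hv
        exact hcon S hS v hvS hv hvT
      · exact hM.2 S hS T hT hST v hvS hvT
  have h2 := hmax _ h1
  rw [card_insert_of_notMem hfM] at h2
  omega

/-- the degree of `z` in terms of a maximal matching in its link -/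
theorem degree_le {r e m : ℕ} (hr : 2 ≤ r) {H : Finset (Finset V)} (hH : Unif r H)
    (hfree : Free H ((r - 2) * e + 3) e) (he : 1 ≤ e) (z : V)
    {M : Finset (Finset V)} (hMH : M ⊆ H.filter (fun f => z ∈ f)) (hMm : M.card ≤ m)
    (hmax : ∀ f ∈ H, z ∈ f → f.card ≠ 1 → ∃ S ∈ M, ∃ v ∈ S, v ≠ z ∧ v ∈ f) :
    (H.filter (fun f => z ∈ f)).card ≤ m * (r - 1) * (e - 1) := by
  classical
  have h1 : H.filter (fun f => z ∈ f) ⊆
      (M.biUnion fun S => S.erase z).biUnion fun v => H.filter (fun f => z ∈ f ∧ v ∈ f) := by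
    intro f hf
    rw [mem_filter] at hf
    obtain ⟨S, hS, v, hvS, hvz, hvf⟩ := hmax f hf.1 hf.2 (by rw [hH f hf.1]; omega)
    rw [mem_biUnion]
    exact ⟨v, mem_biUnion.2 ⟨S, hS, mem_erase.2 ⟨hvz, hvS⟩⟩, mem_filter.2 ⟨hf.1, hf.2, hvf⟩⟩
  have h2 : (M.biUnion fun S => S.erase z).card ≤ M.card * (r - 1) := by
    apply card_biUnion_le_card_mul
    intro S hS
    have := hMH hS
    rw [mem_filter] at this
    rw [card_erase_of_mem this.2, hH S this.1]
  have h3 : ((M.biUnion fun S => S.erase z).biUnion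
      fun v => H.filter (fun f => z ∈ f ∧ v ∈ f)).card ≤
      (M.biUnion fun S => S.erase z).card * (e - 1) := by
    apply card_biUnion_le_card_mul
    intro v hv
    rw [mem_biUnion] at hv
    obtain ⟨S, _, hvS⟩ := hv
    exact codeg hr hH hfree (mem_erase.1 hvS).1.symm he
  calc (H.filter (fun f => z ∈ f)).card ≤ _ := card_le_card h1
    _ ≤ _ := h3
    _ ≤ (M.card * (r - 1)) * (e - 1) := Nat.mul_le_mul_right _ h2
    _ ≤ m * (r - 1) * (e - 1) := by gcongr

/-- double counting of the degrees -/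
theorem sum_degrees [Fintype V] {r : ℕ} {H : Finset (Finset V)} (hH : Unif r H) :
    ∑ z, (H.filter (fun f => z ∈ f)).card = H.card * r := by
  classical
  have h1 := Finset.sum_card_bipartiteAbove_eq_sum_card_bipartiteBelow
    (s := (univ : Finset V)) (t := H) (fun z f => z ∈ f)
  have h2 : ∀ z : V, (Finset.bipartiteAbove (fun z f => z ∈ f) H z) = H.filter (fun f => z ∈ f) :=
    fun z => rfl
  simp only [h2] at h1
  rw [h1]
  have h3 : ∀ f ∈ H, (Finset.bipartiteBelow (fun z f => z ∈ f) (univ : Finset V) f).card = r := by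
    intro f hf
    rw [← hH f hf]
    congr 1
    ext z
    simp [Finset.bipartiteBelow]
  rw [sum_congr rfl h3, sum_const, smul_eq_mul]

end Pool.Agent.X246.LRS
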