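import Pool.Agent.X246.LRS.Robust

/-!
# The bound for approximations of the shadow of small rank
-/

set_option autoImplicit false

namespace Pool.Agent.X246.LRS

open Finset

variable {V : Type} [DecidableEq V] [Fintype V]

theorem sum_matching {r : ℕ} {H : Finset (Finset V)} (hH : Unif r H) (w : Finset V → ℝ)
    (hw : ∀ f, 0 ≤ w f) (M : V → Finset (Finset V)) (hM : ∀ z, M z ⊆ H.filter (fun f => z ∈ f)) :
    ∑ z, ∑ S ∈ M z, w S ≤ r * ∑ f ∈ H, w f := by
  classical
  have h1 : ∀ z, ∑ S ∈ M z, w S ≤ ∑ f ∈ H, (if z ∈ f then w f else 0) := by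
    intro z
    rw [← sum_filter]
    exact sum_le_sum_of_subset_of_nonneg (hM z) fun f _ _ => hw f
  refine (sum_le_sum fun z _ => h1 z).trans ?_
  rw [sum_comm, mul_sum]
  refine sum_le_sum fun f hf => ?_
  rw [← sum_filter, sum_const, nsmul_eq_mul]
  apply mul_le_mul_of_nonneg_right _ (hw f)
  have h2 : univ.filter (fun z => z ∈ f) = f := by
    ext z
    simp
  rw [h2, hH f hf]

theorem eq_zero_of_rank {X Y : Type} [Fintype X] [Fintype Y] (M : Matrix X Y ℝ)
    (h : M.rank = 0) (x : X) (y : Y) : M x y = 0 := by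
  obtain ⟨B, c, hB, hfac⟩ := factor M
  have h3 : B = ∅ := by
    rw [← card_eq_zero]
    omega
  rw [hfac x y, h3]
  simp

/-- **The robust bound.** -/
theorem robust_bound {r : ℕ} (hr : 3 ≤ r) {H : Finset (Finset V)} (hH : Unif r H)
    (hfree : Free H ((r - 2) * 4 + 3) 4) (G : Matrix V V ℝ) (β : ℝ)
    (hβ : 1 ≤ β) (hG : ∀ x y, |G x y| ≤ β) :
    (r : ℝ) * H.card ≤ 3 * (r - 1) * (4 * (G.rank : ℝ) ^ 2 * β ^ 4 * Fintype.card V +
      17 / 3 * G.rank * β * Fintype.card V * √(Err H G) + 12 * r * Err H G) := by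
  classical
  have hE := Err_nonneg H G
  have hr1 : (2 : ℝ) ≤ (r : ℝ) - 1 := by
    have : (3 : ℝ) ≤ r := by exact_mod_cast hr
    linarith
  have hcast : ((r - 1 : ℕ) : ℝ) = (r : ℝ) - 1 := by
    push_cast [Nat.cast_sub (show 1 ≤ r by omega)]
    ring
  by_cases hH4 : 4 ≤ H.card
  · choose M hM hdis hmax using exists_matching H
    choose t ht0 ht2 ht using fun z => local_bound hr hH hH4 hfree G β hβ hG z (M z) (hM z) (hdis z)
    have h1 : (r : ℝ) * H.card ≤ 3 * (r - 1) * ((∑ z, (M z).card : ℕ) : ℝ) := by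
      have e1 : ∀ z : V, (H.filter (fun f => z ∈ f)).card ≤ (M z).card * (r - 1) * (4 - 1) :=
        fun z => degree_le (by omega) hH hfree (by norm_num) z (hM z) le_rfl (hmax z)
      have e2 := sum_le_sum fun z (_ : z ∈ (univ : Finset V)) => e1 z
      rw [sum_degrees hH, ← sum_mul, ← sum_mul] at e2
      have e3 : ((H.card * r : ℕ) : ℝ) ≤ (((∑ z, (M z).card) * (r - 1) * (4 - 1) : ℕ) : ℝ) := by
        exact_mod_cast e2
      rw [Nat.cast_mul, Nat.cast_mul, Nat.cast_mul, hcast] at e3
      push_cast at e3 ⊢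
      linarith
    set P : ℝ := ((∑ z, (M z).card : ℕ) : ℝ) with hP
    have hPc : P = ∑ z, ((M z).card : ℝ) := by
      rw [hP]
      push_cast
      rfl
    have hP0 : 0 ≤ P := Nat.cast_nonneg _
    have h2 : P / 2 ≤ ∑ z, t z + 3 * r * Err H G := by
      have e1 := sum_le_sum fun z (_ : z ∈ (univ : Finset V)) => ht z
      rw [sum_add_distrib, ← sum_div, ← hPc] at e1
      have e2 := sum_matching hH (wt H G) (wt_nonneg H G) M hM
      have e3 := mul_le_mul_of_nonneg_left (sum_wt_le (by omega) hH hfree G)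
        (Nat.cast_nonneg (α := ℝ) r)
      linarith
    have h3 : (∑ z, t z) ^ 2 ≤ Fintype.card V * ((G.rank : ℝ) ^ 2 *
        (β ^ 4 * P + 2 * β ^ 2 * (Fintype.card V * Err H G))) := by
      have e1 := sq_sum_le_card_mul_sum_sq (s := (univ : Finset V)) (f := t)
      rw [card_univ] at e1
      refine e1.trans (mul_le_mul_of_nonneg_left ?_ (Nat.cast_nonneg _))
      refine (sum_le_sum fun z _ => ht2 z).trans (le_of_eq ?_)
      rw [← mul_sum, sum_add_distrib, ← mul_sum, ← hPc, sum_const, card_univ, nsmul_eq_mul]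
      ring
    have h4 := algebra P (∑ z, t z) (Err H G) G.rank β (Fintype.card V) (3 * r) hP0
      (sum_nonneg fun z _ => ht0 z) hE (Nat.cast_nonneg _) (by linarith) (Nat.cast_nonneg _) h2 h3
    refine h1.trans ?_
    apply mul_le_mul_of_nonneg_left _ (by positivity)
    linarith
  · rcases H.eq_empty_or_nonempty with rfl | ⟨f, hf⟩
    · rw [card_empty]
      have : (0 : ℝ) ≤ 3 * (r - 1) := by linarith
      have h2 : (0 : ℝ) ≤ β := by linarith
      push_cast
      rw [mul_zero]
      positivity
    · obtain ⟨z, hz⟩ : f.Nonempty := by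
        rw [← card_pos, hH f hf]
        omega
      obtain ⟨a, ha, b, hb, -, -, hab⟩ := exists_two hr (hH f hf) hz
      have hn : (r : ℝ) ≤ Fintype.card V := by
        have : r ≤ Fintype.card V := by
          rw [← hH f hf]
          exact card_le_univ f
        exact_mod_cast this
      have h3 : (H.card : ℝ) ≤ 3 := by
        have : H.card ≤ 3 := by omega
        exact_mod_cast this
      have hr0 : (3 : ℝ) ≤ r := by exact_mod_cast hr
      have hs : 0 ≤ √(Err H G) := Real.sqrt_nonneg _
      have hβ0 : (0 : ℝ) ≤ β := by linarith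
      have hmid : 0 ≤ 17 / 3 * (G.rank : ℝ) * β * Fintype.card V * √(Err H G) := by positivity
      have h5 : (1 : ℝ) ≤ 4 * (G.rank : ℝ) ^ 2 * β ^ 4 * Fintype.card V / r + 12 * Err H G := by
        by_cases h0 : G.rank = 0
        · have e1 : err H G a b = 1 := by
            unfold err
            rw [if_neg hab, if_pos ⟨f, hf, ha, hb⟩, eq_zero_of_rank G h0 a b]
            ring
          have e2 := err_le_wt H G ha hb
          have e3 : wt H G f ≤ Err H G := by
            unfold wt Err
            refine (sum_le_sum fun x _ => sum_le_sum_of_subset_of_nonneg (subset_univ f)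
              fun _ _ _ => sq_nonneg _).trans ?_
            exact sum_le_sum_of_subset_of_nonneg (subset_univ f)
              fun _ _ _ => sum_nonneg fun _ _ => sq_nonneg _
          rw [e1] at e2
          rw [h0]
          push_cast
          have e4 : (0 : ℝ) ^ 2 = 0 := by norm_num
          rw [e4]
          simp only [mul_zero, zero_mul, zero_div]
          linarith
        · have e1 : (1 : ℝ) ≤ G.rank := by
            exact_mod_cast Nat.one_le_iff_ne_zero.2 h0
          have e2 : (1 : ℝ) ≤ (G.rank : ℝ) ^ 2 := one_le_pow₀ e1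
          have e3 : (1 : ℝ) ≤ β ^ 4 := one_le_pow₀ hβ
          have e4 : (1 : ℝ) ≤ Fintype.card V / r := by
            rw [le_div_iff₀ (by linarith)]
            linarith
          have e5 : (1 : ℝ) ≤ (G.rank : ℝ) ^ 2 * β ^ 4 := one_le_mul_of_one_le_of_one_le e2 e3
          have e6 : (1 : ℝ) ≤ (G.rank : ℝ) ^ 2 * β ^ 4 * (Fintype.card V / r) :=
            one_le_mul_of_one_le_of_one_le e5 e4
          have e7 : 4 * (G.rank : ℝ) ^ 2 * β ^ 4 * Fintype.card V / r =
              4 * ((G.rank : ℝ) ^ 2 * β ^ 4 * (Fintype.card V / r)) := by ring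
          rw [e7]
          linarith
      have h6 : (r : ℝ) ≤ 4 * (G.rank : ℝ) ^ 2 * β ^ 4 * Fintype.card V + 12 * r * Err H G := by
        have e1 := mul_le_mul_of_nonneg_left h5 (show (0 : ℝ) ≤ r by linarith)
        have e2 : (r : ℝ) * (4 * (G.rank : ℝ) ^ 2 * β ^ 4 * Fintype.card V / r + 12 * Err H G) =
            4 * (G.rank : ℝ) ^ 2 * β ^ 4 * Fintype.card V + 12 * r * Err H G := by
          have : (r : ℝ) ≠ 0 := by linarith
          field_simp
        rw [e2, mul_one] at e1
        exact e1
      calc (r : ℝ) * H.card ≤ r * 3 := mul_le_mul_of_nonneg_left h3 (by linarith)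
        _ = 3 * 1 * r := by ring
        _ ≤ 3 * (r - 1) * r := by
            apply mul_le_mul_of_nonneg_right _ (by linarith)
            linarith
        _ ≤ _ := by
            apply mul_le_mul_of_nonneg_left _ (by linarith)
            linarith

end Pool.Agent.X246.LRS
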