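import Pool.Agent.X246.LRS.Core

/-!
# Three or four edges on few vertices and the rank of the shadow
-/

set_option autoImplicit false

namespace Pool.Agent.X246.LRS

open Finset

variable {V : Type} [DecidableEq V]

theorem card_union_new {A B : Finset V} {a : ℕ} {P : Finset V} (hP : P ⊆ A) (hPB : P ⊆ B)
    (hB : B.card ≤ a) : (A ∪ B).card + P.card ≤ A.card + a := by
  have h1 := card_union_add_card_inter A B
  have h2 : P.card ≤ (A ∩ B).card := card_le_card (subset_inter hP hPB)
  omega

/-- three edges through one cross pair -/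
theorem three_edges {r : ℕ} (hr : 3 ≤ r) {H : Finset (Finset V)} (hH : Unif r H) {z : V}
    {S T E : Finset V} (hS : S ∈ H) (hT : T ∈ H) (hE : E ∈ H) (hzS : z ∈ S) (hzT : z ∈ T)
    (hST : ∀ v ∈ S, v ∈ T → v = z) {a b : V} (haS : a ∈ S) (haz : a ≠ z) (hbT : b ∈ T)
    (hbz : b ≠ z) (haE : a ∈ E) (hbE : b ∈ E) : ¬ Free H ((r - 2) * 3 + 3) 3 := by
  intro hfree
  have hab : a ≠ b := by
    rintro rfl
    exact haz (hST a haS hbT)
  have h1 : S ≠ T := by
    rintro rfl
    exact haz (hST a haS haS)
  have h2 : E ≠ S := by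
    rintro rfl
    exact hbz (hST b hbE hbT)
  have h3 : E ≠ T := by
    rintro rfl
    exact haz (hST a haS haE)
  have h4 := hfree {S, T, E} (by
    intro f hf
    simp only [mem_insert, mem_singleton] at hf
    rcases hf with rfl | rfl | rfl <;> assumption) (by
    rw [card_insert_of_notMem (by simp [h1, h2.symm]), card_insert_of_notMem (by simp [h3.symm]),
      card_singleton])
  have h5 : (({S, T, E} : Finset (Finset V)).biUnion id) = (S ∪ T) ∪ E := by
    simp [biUnion_insert, union_assoc]
  rw [h5] at h4
  have h6 := card_union_new (A := S) (B := T) (P := {z}) (by simpa using hzS) (by simpa using hzT)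
    (hH T hT).le
  have h7 := card_union_new (A := S ∪ T) (B := E) (P := {a, b}) (by
    intro v hv
    simp only [mem_insert, mem_singleton] at hv
    rcases hv with rfl | rfl
    · exact mem_union_left _ haS
    · exact mem_union_right _ hbT) (by
    intro v hv
    simp only [mem_insert, mem_singleton] at hv
    rcases hv with rfl | rfl <;> assumption) (hH E hE).le
  rw [card_pair hab] at h7
  rw [card_singleton, hH S hS] at h6
  obtain ⟨q, rfl⟩ : ∃ q, r = q + 3 := ⟨r - 3, by omega⟩
  have e1 : (q + 3 - 2) * 3 + 3 = 3 * q + 6 := by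
    rw [show q + 3 - 2 = q + 1 by omega]
    ring
  omega

/-- four edges through two cross pairs -/
theorem four_edges {r : ℕ} (hr : 3 ≤ r) {H : Finset (Finset V)} (hH : Unif r H) {z : V}
    (hH4 : 4 ≤ H.card)
    {S T E F : Finset V} (hS : S ∈ H) (hT : T ∈ H) (hE : E ∈ H) (hF : F ∈ H)
    (hzS : z ∈ S) (hzT : z ∈ T) (hST : ∀ v ∈ S, v ∈ T → v = z)
    {a a' b b' : V} (haS : a ∈ S) (haz : a ≠ z) (haS' : a' ∈ S) (haz' : a' ≠ z) (haa : a ≠ a')
    (hbT : b ∈ T) (hbz : b ≠ z) (hbT' : b' ∈ T) (hbz' : b' ≠ z) (hbb : b ≠ b')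
    (haE : a ∈ E) (hbE : b ∈ E) (haF : a' ∈ F) (hbF : b' ∈ F) :
    ¬ Free H ((r - 2) * 4 + 3) 4 := by
  intro hfree
  have hne : ∀ u ∈ S, u ≠ z → ∀ w ∈ T, u ≠ w := by
    rintro u hu huz w hw rfl
    exact huz (hST u hu hw)
  have hab := hne a haS haz b hbT
  have hab' := hne a' haS' haz' b' hbT'
  have h1 : S ≠ T := by
    rintro rfl
    exact haz (hST a haS haS)
  have h2 : E ≠ S := by
    rintro rfl
    exact hbz (hST b hbE hbT)
  have h3 : E ≠ T := by
    rintro rfl
    exact haz (hST a haS haE)
  have h2' : F ≠ S := by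
    rintro rfl
    exact hbz' (hST b' hbF hbT')
  have h3' : F ≠ T := by
    rintro rfl
    exact haz' (hST a' haS' haF)
  have h6 := card_union_new (A := S) (B := T) (P := {z}) (by simpa using hzS) (by simpa using hzT)
    (hH T hT).le
  rw [card_singleton, hH S hS] at h6
  obtain ⟨q, rfl⟩ : ∃ q, r = q + 3 := ⟨r - 3, by omega⟩
  have e1 : (q + 3 - 2) * 4 + 3 = 4 * q + 7 := by
    rw [show q + 3 - 2 = q + 1 by omega]
    ring
  rw [e1] at hfree
  by_cases hEF : E = F
  · -- one edge through both pairs
    subst hEF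
    have h7 := card_union_new (A := S ∪ T) (B := E) (P := {a, a', b, b'}) (by
      intro v hv
      simp only [mem_insert, mem_singleton] at hv
      rcases hv with rfl | rfl | rfl | rfl
      · exact mem_union_left _ haS
      · exact mem_union_left _ haS'
      · exact mem_union_right _ hbT
      · exact mem_union_right _ hbT') (by
      intro v hv
      simp only [mem_insert, mem_singleton] at hv
      rcases hv with rfl | rfl | rfl | rfl <;> assumption) (hH E hE).le
    have hcard : ({a, a', b, b'} : Finset V).card = 4 := by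
      rw [card_insert_of_notMem (by simp [haa, hab, hne a haS haz b' hbT']),
        card_insert_of_notMem (by simp [hne a' haS' haz' b hbT, hab']),
        card_insert_of_notMem (by simp [hbb]), card_singleton]
    rw [hcard] at h7
    obtain ⟨G, hG, hGn⟩ : ∃ G ∈ H, G ∉ ({S, T, E} : Finset (Finset V)) := by
      by_contra hcon
      push Not at hcon
      have h8 : H.card ≤ ({S, T, E} : Finset (Finset V)).card := card_le_card hcon
      have h9 : ({S, T, E} : Finset (Finset V)).card ≤ 3 := card_le_three
      omega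
    have h8 := card_union_new (A := (S ∪ T) ∪ E) (B := G) (P := ∅) (by simp) (by simp)
      (hH G hG).le
    rw [card_empty] at h8
    have h4 := hfree (insert G {S, T, E}) (by
      intro f hf
      simp only [mem_insert, mem_singleton] at hf
      rcases hf with rfl | rfl | rfl | rfl <;> assumption) (by
      rw [card_insert_of_notMem hGn, card_insert_of_notMem (by simp [h1, h2.symm]),
        card_insert_of_notMem (by simp [h3.symm]), card_singleton])
    have h5 : ((insert G {S, T, E} : Finset (Finset V)).biUnion id) = ((S ∪ T) ∪ E) ∪ G := by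
      ext v
      simp only [mem_biUnion, mem_insert, mem_singleton, id_eq, mem_union]
      constructor
      · rintro ⟨f, rfl | rfl | rfl | rfl, hv⟩ <;> simp [hv]
      · rintro (((h | h) | h) | h)
        · exact ⟨S, by simp, h⟩
        · exact ⟨T, by simp, h⟩
        · exact ⟨E, by simp, h⟩
        · exact ⟨G, by simp, h⟩
    rw [h5] at h4
    omega
  · have h7 := card_union_new (A := S ∪ T) (B := E) (P := {a, b}) (by
      intro v hv
      simp only [mem_insert, mem_singleton] at hv
      rcases hv with rfl | rfl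
      · exact mem_union_left _ haS
      · exact mem_union_right _ hbT) (by
      intro v hv
      simp only [mem_insert, mem_singleton] at hv
      rcases hv with rfl | rfl <;> assumption) (hH E hE).le
    rw [card_pair hab] at h7
    have h8 := card_union_new (A := (S ∪ T) ∪ E) (B := F) (P := {a', b'}) (by
      intro v hv
      simp only [mem_insert, mem_singleton] at hv
      rcases hv with rfl | rfl
      · exact mem_union_left _ (mem_union_left _ haS')
      · exact mem_union_left _ (mem_union_right _ hbT')) (by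
      intro v hv
      simp only [mem_insert, mem_singleton] at hv
      rcases hv with rfl | rfl <;> assumption) (hH F hF).le
    rw [card_pair hab'] at h8
    have h4 := hfree {S, T, E, F} (by
      intro f hf
      simp only [mem_insert, mem_singleton] at hf
      rcases hf with rfl | rfl | rfl | rfl <;> assumption) (by
      rw [card_insert_of_notMem (by simp [h1, h2.symm, h2'.symm]),
        card_insert_of_notMem (by simp [h3.symm, h3'.symm]),
        card_insert_of_notMem (by simp [hEF]), card_singleton])
    have h5 : (({S, T, E, F} : Finset (Finset V)).biUnion id) = ((S ∪ T) ∪ E) ∪ F := by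
      ext v
      simp only [mem_biUnion, mem_insert, mem_singleton, id_eq, mem_union]
      constructor
      · rintro ⟨f, rfl | rfl | rfl | rfl, hv⟩ <;> simp [hv]
      · rintro (((h | h) | h) | h)
        · exact ⟨S, by simp, h⟩
        · exact ⟨T, by simp, h⟩
        · exact ⟨E, by simp, h⟩
        · exact ⟨F, by simp, h⟩
    rw [h5] at h4
    omega

/-- two vertices of `S` besides `z` -/
theorem exists_two {r : ℕ} (hr : 3 ≤ r) {S : Finset V} (hS : S.card = r) {z : V} (hz : z ∈ S) :
    ∃ a ∈ S, ∃ b ∈ S, a ≠ z ∧ b ≠ z ∧ a ≠ b := by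
  have h1 : 1 < (S.erase z).card := by
    rw [card_erase_of_mem hz]
    omega
  obtain ⟨a, ha, b, hb, hab⟩ := one_lt_card.1 h1
  rw [mem_erase] at ha hb
  exact ⟨a, ha.2, b, hb.2, ha.1, hb.1, hab⟩

variable [Fintype V] {K : Type} [Field K]

/-- `W x y ≠ 0` exactly for the pairs covered by an edge -/
def Supp (H : Finset (Finset V)) (W : Matrix V V K) : Prop :=
  ∀ x y, x ≠ y → (W x y ≠ 0 ↔ ∃ f ∈ H, x ∈ f ∧ y ∈ f)

theorem bound_three {r : ℕ} (hr : 3 ≤ r) {H : Finset (Finset V)} (hH : Unif r H)
    (hfree : Free H ((r - 2) * 3 + 3) 3) {W : Matrix V V K} (hW : Supp H W) :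
    r * H.card ≤ 2 * (r - 1) * W.rank * Fintype.card V := by
  classical
  have h1 : ∀ z : V, (H.filter (fun f => z ∈ f)).card ≤ W.rank * (r - 1) * (3 - 1) := by
    intro z
    obtain ⟨M, hM, hdis, hmax⟩ := exists_matching H z
    refine degree_le (by omega) hH hfree (by norm_num) z hM ?_ hmax
    by_contra hcon
    push Not at hcon
    have hMH : ∀ S : M, S.1 ∈ H ∧ z ∈ S.1 := fun S => mem_filter.1 (hM S.2)
    choose a haS b hbS haz hbz hab using fun S : M => exists_two hr (hH S.1 (hMH S).1) (hMH S).2
    obtain ⟨S, T, hST, hc⟩ := one_arc W a b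
      (fun S => (hW _ _ (hab S)).2 ⟨S.1, (hMH S).1, haS S, hbS S⟩)
      (by rw [Fintype.card_coe]; exact hcon)
    have hd := hdis S.1 S.2 T.1 T.2 (fun h => hST (Subtype.ext h))
    have hne : a S ≠ b T := by
      intro h
      exact haz S (hd _ (haS S) (h ▸ hbS T))
    obtain ⟨E, hE, haE, hbE⟩ := (hW _ _ hne).1 hc
    exact three_edges hr hH (hMH S).1 (hMH T).1 hE (hMH S).2 (hMH T).2 hd (haS S) (haz S) (hbS T)
      (hbz T) haE hbE hfree
  have h2 := sum_le_sum fun z (_ : z ∈ (univ : Finset V)) => h1 z
  rw [sum_degrees hH, sum_const, card_univ, smul_eq_mul] at h2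
  calc r * H.card = H.card * r := mul_comm _ _
    _ ≤ _ := h2
    _ = 2 * (r - 1) * W.rank * Fintype.card V := by
      rw [show 3 - 1 = 2 from rfl]
      ring

theorem bound_four {r : ℕ} (hr : 3 ≤ r) {H : Finset (Finset V)} (hH : Unif r H)
    (hfree : Free H ((r - 2) * 4 + 3) 4) {W : Matrix V V K} (hW : Supp H W) :
    r * H.card ≤ 3 * (r - 1) * W.rank ^ 2 * Fintype.card V := by
  classical
  by_cases hH4 : 4 ≤ H.card
  · have h1 : ∀ z : V, (H.filter (fun f => z ∈ f)).card ≤ W.rank ^ 2 * (r - 1) * (4 - 1) := by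
      intro z
      obtain ⟨M, hM, hdis, hmax⟩ := exists_matching H z
      refine degree_le (by omega) hH hfree (by norm_num) z hM ?_ hmax
      by_contra hcon
      push Not at hcon
      have hMH : ∀ S : M, S.1 ∈ H ∧ z ∈ S.1 := fun S => mem_filter.1 (hM S.2)
      choose a haS b hbS haz hbz hab using fun S : M => exists_two hr (hH S.1 (hMH S).1) (hMH S).2
      obtain ⟨S, T, hST, hc, hc'⟩ := two_arcs W a b
        (fun S => (hW _ _ (hab S)).2 ⟨S.1, (hMH S).1, haS S, hbS S⟩)
        (by rw [Fintype.card_coe]; exact hcon)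
      have hd := hdis S.1 S.2 T.1 T.2 (fun h => hST (Subtype.ext h))
      have hne : a S ≠ b T := by
        intro h
        exact haz S (hd _ (haS S) (h ▸ hbS T))
      have hne' : a T ≠ b S := by
        intro h
        exact haz T (hd _ (h ▸ hbS S) (haS T))
      obtain ⟨E, hE, haE, hbE⟩ := (hW _ _ hne).1 hc
      obtain ⟨F, hF, haF, hbF⟩ := (hW _ _ hne').1 hc'
      exact four_edges hr hH hH4 (hMH S).1 (hMH T).1 hE hF (hMH S).2 (hMH T).2 hd
        (haS S) (haz S) (hbS S) (hbz S) (hab S) (hbS T) (hbz T) (haS T) (haz T) (hab T).symm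
        haE hbE hbF haF hfree
    have h2 := sum_le_sum fun z (_ : z ∈ (univ : Finset V)) => h1 z
    rw [sum_degrees hH, sum_const, card_univ, smul_eq_mul] at h2
    calc r * H.card = H.card * r := mul_comm _ _
      _ ≤ _ := h2
      _ = 3 * (r - 1) * W.rank ^ 2 * Fintype.card V := by
        rw [show 4 - 1 = 3 from rfl]
        ring
  · rcases H.eq_empty_or_nonempty with rfl | ⟨f, hf⟩
    · simp
    · -- at most three edges
      obtain ⟨z, hz⟩ : f.Nonempty := by
        rw [← card_pos, hH f hf]
        omega
      obtain ⟨a, ha, b, hb, -, -, hab⟩ := exists_two hr (hH f hf) hz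
      have h1 : 1 ≤ W.rank := by
        by_contra hcon
        have h2 : W.rank = 0 := by omega
        obtain ⟨B, c, hB, hfac⟩ := factor W
        have h3 : B = ∅ := by
          rw [← card_eq_zero]
          omega
        have h4 := (hW a b hab).2 ⟨f, hf, ha, hb⟩
        apply h4
        rw [hfac a b, h3]
        simp
      have h2 : r ≤ Fintype.card V := by
        rw [← hH f hf]
        exact card_le_univ f
      have h3 : H.card ≤ 3 := by omega
      have h4 : 1 ≤ W.rank ^ 2 := Nat.one_le_pow _ _ h1
      calc r * H.card ≤ r * 3 := Nat.mul_le_mul_left _ h3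
        _ ≤ Fintype.card V * 3 := Nat.mul_le_mul_right _ h2
        _ = 3 * 1 * 1 * Fintype.card V := by ring
        _ ≤ 3 * (r - 1) * W.rank ^ 2 * Fintype.card V := by
          gcongr
          omega

end Pool.Agent.X246.LRS
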