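import Pool.Agent.X246.LRS.Main
import Pool.Agent.X246.LRS.Trace

/-!
# Hypergraphs without four edges on few vertices and approximations of the shadow of small rank
-/

set_option autoImplicit false

namespace Pool.Agent.X246.LRS

open Finset

variable {V : Type} [DecidableEq V]

open Classical in
/-- the adjacency matrix of the shadow minus `G`, with zeros on the diagonal -/
noncomputable def err (H : Finset (Finset V)) (G : Matrix V V ℝ) (x y : V) : ℝ :=
  if x = y then 0 else (if ∃ f ∈ H, x ∈ f ∧ y ∈ f then 1 else 0) - G x y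

/-- the sum of the squares of the entries of `err` inside `f` -/
noncomputable def wt (H : Finset (Finset V)) (G : Matrix V V ℝ) (f : Finset V) : ℝ :=
  ∑ x ∈ f, ∑ y ∈ f, err H G x y ^ 2

theorem wt_nonneg (H : Finset (Finset V)) (G : Matrix V V ℝ) (f : Finset V) : 0 ≤ wt H G f :=
  sum_nonneg fun _ _ => sum_nonneg fun _ _ => sq_nonneg _

theorem err_le_wt (H : Finset (Finset V)) (G : Matrix V V ℝ) {f : Finset V} {x y : V}
    (hx : x ∈ f) (hy : y ∈ f) : err H G x y ^ 2 ≤ wt H G f := by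
  have h1 : err H G x y ^ 2 ≤ ∑ y ∈ f, err H G x y ^ 2 :=
    single_le_sum (f := fun y => err H G x y ^ 2) (fun _ _ => sq_nonneg _) hy
  exact h1.trans (single_le_sum (f := fun x => ∑ y ∈ f, err H G x y ^ 2)
    (fun _ _ => sum_nonneg fun _ _ => sq_nonneg _) hx)

variable [Fintype V]

/-- the squared distance of `G` and the adjacency matrix of the shadow, off the diagonal -/
noncomputable def Err (H : Finset (Finset V)) (G : Matrix V V ℝ) : ℝ :=
  ∑ x, ∑ y, err H G x y ^ 2

theorem Err_nonneg (H : Finset (Finset V)) (G : Matrix V V ℝ) : 0 ≤ Err H G :=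
  sum_nonneg fun _ _ => sum_nonneg fun _ _ => sq_nonneg _

/-- errors along two injective families of vertices -/
theorem sum_err_le (H : Finset (Finset V)) (G : Matrix V V ℝ) {I : Type} [Fintype I]
    (a b : I → V) (ha : Function.Injective a) (hb : Function.Injective b) :
    ∑ i, ∑ j, err H G (a i) (b j) ^ 2 ≤ Err H G := by
  classical
  have h1 : ∀ x, ∑ j, err H G x (b j) ^ 2 ≤ ∑ y, err H G x y ^ 2 := by
    intro x
    rw [← sum_image (s := univ) (g := b) (f := fun y => err H G x y ^ 2)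
      (fun i _ j _ h => hb h)]
    exact sum_le_sum_of_subset_of_nonneg (subset_univ _) fun _ _ _ => sq_nonneg _
  calc ∑ i, ∑ j, err H G (a i) (b j) ^ 2 ≤ ∑ i, ∑ y, err H G (a i) y ^ 2 :=
        sum_le_sum fun i _ => h1 (a i)
    _ = ∑ x ∈ univ.image a, ∑ y, err H G x y ^ 2 := by
        rw [sum_image (fun i _ j _ h => ha h)]
    _ ≤ Err H G :=
        sum_le_sum_of_subset_of_nonneg (subset_univ _)
          fun _ _ _ => sum_nonneg fun _ _ => sq_nonneg _

theorem local_bound {r : ℕ} (hr : 3 ≤ r) {H : Finset (Finset V)} (hH : Unif r H)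
    (hH4 : 4 ≤ H.card) (hfree : Free H ((r - 2) * 4 + 3) 4) (G : Matrix V V ℝ) (β : ℝ)
    (hβ : 1 ≤ β) (hG : ∀ x y, |G x y| ≤ β) (z : V) (M : Finset (Finset V))
    (hM : M ⊆ H.filter (fun f => z ∈ f))
    (hdis : ∀ S ∈ M, ∀ T ∈ M, S ≠ T → ∀ v ∈ S, v ∈ T → v = z) :
    ∃ t : ℝ, 0 ≤ t ∧ t ^ 2 ≤ (G.rank : ℝ) ^ 2 * (β ^ 4 * M.card + 2 * β ^ 2 * Err H G) ∧
      (M.card : ℝ) / 2 ≤ t + ∑ S ∈ M, wt H G S := by
  classical
  have hMH : ∀ S : M, S.1 ∈ H ∧ z ∈ S.1 := fun S => mem_filter.1 (hM S.2)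
  choose a haS b hbS haz hbz hab using fun S : M => exists_two hr (hH S.1 (hMH S).1) (hMH S).2
  have hd : ∀ S T : M, S ≠ T → ∀ v ∈ S.1, v ∈ T.1 → v = z := fun S T hST =>
    hdis S.1 S.2 T.1 T.2 (fun h => hST (Subtype.ext h))
  have hainj : Function.Injective a := by
    intro S T h
    by_contra hST
    exact haz S (hd S T hST _ (haS S) (h ▸ haS T))
  have hbinj : Function.Injective b := by
    intro S T h
    by_contra hST
    exact hbz S (hd S T hST _ (hbS S) (h ▸ hbS T))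
  have hne : ∀ S T : M, S ≠ T → a S ≠ b T := fun S T hST h =>
    haz S (hd S T hST _ (haS S) (h ▸ hbS T))
  let C : Matrix M M ℝ := Matrix.of fun S T => G (a S) (b T) * G (a T) (b S)
  have hrank : C.rank ≤ G.rank ^ 2 := by
    have h1 : (G.submatrix a b).rank ≤ G.rank := Matrix.rank_submatrix_le _ _ _
    have h2 : ((G.submatrix a b).transpose).rank ≤ G.rank := by
      rw [Matrix.rank_transpose]
      exact h1
    rw [pow_two]
    exact (rank_hadamard (G.submatrix a b) (G.submatrix a b).transpose).trans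
      (Nat.mul_le_mul h1 h2)
  have hβ0 : 0 ≤ β := by linarith
  -- the entries off the diagonal
  have hoff : ∀ S T : M, S ≠ T → C S T ^ 2 ≤
      β ^ 2 * (err H G (a S) (b T) ^ 2 + err H G (a T) (b S) ^ 2) := by
    intro S T hST
    have h1 : G (a S) (b T) ^ 2 ≤ β ^ 2 := by
      rw [← sq_abs]
      exact pow_le_pow_left₀ (abs_nonneg _) (hG _ _) 2
    have h2 : G (a T) (b S) ^ 2 ≤ β ^ 2 := by
      rw [← sq_abs]
      exact pow_le_pow_left₀ (abs_nonneg _) (hG _ _) 2
    have hC : C S T ^ 2 = G (a S) (b T) ^ 2 * G (a T) (b S) ^ 2 := by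
      simp only [C, Matrix.of_apply]
      ring
    rw [hC]
    by_cases hc : ∃ f ∈ H, a S ∈ f ∧ b T ∈ f
    · have hc' : ¬ ∃ f ∈ H, a T ∈ f ∧ b S ∈ f := by
        rintro ⟨F, hF, haF, hbF⟩
        obtain ⟨E, hE, haE, hbE⟩ := hc
        exact four_edges hr hH hH4 (hMH S).1 (hMH T).1 hE hF (hMH S).2 (hMH T).2 (hd S T hST)
          (haS S) (haz S) (hbS S) (hbz S) (hab S) (hbS T) (hbz T) (haS T) (haz T) (hab T).symm
          haE hbE hbF haF hfree
      have h3 : err H G (a T) (b S) ^ 2 = G (a T) (b S) ^ 2 := by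
        unfold err
        rw [if_neg (hne T S hST.symm), if_neg hc']
        ring
      rw [h3]
      calc G (a S) (b T) ^ 2 * G (a T) (b S) ^ 2 ≤ β ^ 2 * G (a T) (b S) ^ 2 :=
            mul_le_mul_of_nonneg_right h1 (sq_nonneg _)
        _ ≤ _ := by
            apply mul_le_mul_of_nonneg_left _ (sq_nonneg _)
            linarith [sq_nonneg (err H G (a S) (b T))]
    · have h3 : err H G (a S) (b T) ^ 2 = G (a S) (b T) ^ 2 := by
        unfold err
        rw [if_neg (hne S T hST), if_neg hc]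
        ring
      rw [h3]
      calc G (a S) (b T) ^ 2 * G (a T) (b S) ^ 2 ≤ G (a S) (b T) ^ 2 * β ^ 2 :=
            mul_le_mul_of_nonneg_left h2 (sq_nonneg _)
        _ = β ^ 2 * G (a S) (b T) ^ 2 := mul_comm _ _
        _ ≤ _ := by
            apply mul_le_mul_of_nonneg_left _ (sq_nonneg _)
            linarith [sq_nonneg (err H G (a T) (b S))]
  have hdiag : ∀ S : M, C S S ^ 2 ≤ β ^ 4 := by
    intro S
    have h1 : C S S ^ 2 = |G (a S) (b S)| ^ 4 := by
      rw [Even.pow_abs (by decide)]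
      simp only [C, Matrix.of_apply]
      ring
    rw [h1]
    exact pow_le_pow_left₀ (abs_nonneg _) (hG _ _) 4
  have hfro : ∑ S, ∑ T, C S T ^ 2 ≤ β ^ 4 * M.card + 2 * β ^ 2 * Err H G := by
    have h1 : ∀ S T : M, C S T ^ 2 ≤ (if S = T then β ^ 4 else 0) +
        β ^ 2 * (err H G (a S) (b T) ^ 2 + err H G (a T) (b S) ^ 2) := by
      intro S T
      by_cases hST : S = T
      · subst hST
        rw [if_pos rfl]
        have h2 := hdiag S
        have h3 : 0 ≤ β ^ 2 * (err H G (a S) (b S) ^ 2 + err H G (a S) (b S) ^ 2) := by positivity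
        linarith
      · rw [if_neg hST, zero_add]
        exact hoff S T hST
    have h2 := sum_err_le H G a b hainj hbinj
    have h3 : ∑ S, ∑ T, err H G (a T) (b S) ^ 2 ≤ Err H G := by
      rw [sum_comm]
      exact h2
    calc ∑ S, ∑ T, C S T ^ 2 ≤ ∑ S : M, ∑ T : M, ((if S = T then β ^ 4 else 0) +
        β ^ 2 * (err H G (a S) (b T) ^ 2 + err H G (a T) (b S) ^ 2)) :=
          sum_le_sum fun S _ => sum_le_sum fun T _ => h1 S T
      _ = M.card * β ^ 4 + β ^ 2 * (∑ S, ∑ T, err H G (a S) (b T) ^ 2 +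
            ∑ S, ∑ T, err H G (a T) (b S) ^ 2) := by
          simp only [sum_add_distrib, sum_ite_eq, mem_univ, if_true, sum_const, card_univ,
            Fintype.card_coe, nsmul_eq_mul, ← mul_sum]
      _ ≤ M.card * β ^ 4 + β ^ 2 * (Err H G + Err H G) := by
          gcongr
      _ = _ := by ring
  refine ⟨∑ S, C S S, ?_, ?_, ?_⟩
  · refine sum_nonneg fun S _ => ?_
    simp only [C, Matrix.of_apply]
    exact mul_self_nonneg _
  · refine (trace_sq_le C).trans ?_
    have h1 : (C.rank : ℝ) ≤ (G.rank : ℝ) ^ 2 := by exact_mod_cast hrank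
    exact mul_le_mul h1 hfro (sum_nonneg fun _ _ => sum_nonneg fun _ _ => sq_nonneg _)
      (by positivity)
  · have h1 : ∀ S : M, (1 : ℝ) / 2 ≤ C S S + wt H G S.1 := by
      intro S
      have h2 := err_le_wt H G (haS S) (hbS S)
      have h3 : err H G (a S) (b S) = 1 - G (a S) (b S) := by
        unfold err
        rw [if_neg (hab S), if_pos ⟨S.1, (hMH S).1, haS S, hbS S⟩]
      have h4 : C S S = G (a S) (b S) ^ 2 := by
        simp only [C, Matrix.of_apply]
        ring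
      rw [h3] at h2
      rw [h4]
      nlinarith [sq_nonneg (2 * G (a S) (b S) - 1)]
    have h2 := sum_le_sum fun S (_ : S ∈ (univ : Finset M)) => h1 S
    rw [sum_add_distrib, sum_const, card_univ, Fintype.card_coe, nsmul_eq_mul,
      sum_coe_sort M (fun S => wt H G S)] at h2
    linarith

/-- the weights of the edges -/
theorem sum_wt_le {r : ℕ} (hr : 2 ≤ r) {H : Finset (Finset V)} (hH : Unif r H)
    (hfree : Free H ((r - 2) * 4 + 3) 4) (G : Matrix V V ℝ) :
    ∑ f ∈ H, wt H G f ≤ 3 * Err H G := by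
  classical
  have h1 : ∀ f, wt H G f =
      ∑ x, ∑ y, (if x ∈ f ∧ y ∈ f then err H G x y ^ 2 else 0) := by
    intro f
    unfold wt
    rw [← sum_filter_add_sum_filter_not univ (fun x => x ∈ f)]
    have e1 : ∑ x ∈ univ.filter (fun x => ¬ x ∈ f), ∑ y,
        (if x ∈ f ∧ y ∈ f then err H G x y ^ 2 else 0) = 0 := by
      refine sum_eq_zero fun x hx => sum_eq_zero fun y _ => ?_
      rw [mem_filter] at hx
      rw [if_neg (fun h => hx.2 h.1)]
    rw [e1, add_zero]
    have e2 : univ.filter (fun x => x ∈ f) = f := by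
      ext x
      simp
    rw [e2]
    refine sum_congr rfl fun x hx => ?_
    rw [← sum_filter_add_sum_filter_not univ (fun y => y ∈ f)]
    have e3 : ∑ y ∈ univ.filter (fun y => ¬ y ∈ f),
        (if x ∈ f ∧ y ∈ f then err H G x y ^ 2 else 0) = 0 := by
      refine sum_eq_zero fun y hy => ?_
      rw [mem_filter] at hy
      rw [if_neg (fun h => hy.2 h.2)]
    rw [e3, add_zero, e2]
    refine sum_congr rfl fun y hy => ?_
    rw [if_pos ⟨hx, hy⟩]
  rw [sum_congr rfl fun f _ => h1 f, sum_comm]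
  unfold Err
  rw [mul_sum]
  refine sum_le_sum fun x _ => ?_
  rw [sum_comm, mul_sum]
  refine sum_le_sum fun y _ => ?_
  by_cases hxy : x = y
  · subst hxy
    have e1 : err H G x x = 0 := by
      unfold err
      rw [if_pos rfl]
    simp [e1]
  · rw [← sum_filter, sum_const, nsmul_eq_mul]
    apply mul_le_mul_of_nonneg_right _ (sq_nonneg _)
    exact_mod_cast codeg hr hH hfree hxy (by norm_num)

theorem algebra (P X E ρ β n c : ℝ) (hP : 0 ≤ P) (hX : 0 ≤ X) (hE : 0 ≤ E) (hρ : 0 ≤ ρ)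
    (hβ : 0 ≤ β) (hn : 0 ≤ n) (h1 : P / 2 ≤ X + c * E)
    (h2 : X ^ 2 ≤ n * (ρ ^ 2 * (β ^ 4 * P + 2 * β ^ 2 * (n * E)))) :
    P ≤ 4 * ρ ^ 2 * β ^ 4 * n + 17 / 3 * ρ * β * n * √E + 4 * c * E := by
  have hq := Real.sq_sqrt hP
  have hs := Real.sq_sqrt hE
  have hu := Real.sq_sqrt hn
  set q := √P
  set s := √E
  set u := √n
  have hq0 : 0 ≤ q := Real.sqrt_nonneg _
  have hs0 : 0 ≤ s := Real.sqrt_nonneg _
  have hu0 : 0 ≤ u := Real.sqrt_nonneg _
  have h3 : X ≤ ρ * β ^ 2 * u * q + 17 / 12 * ρ * β * u ^ 2 * s := by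
    apply le_of_sq_le_sq _ (by positivity)
    have e1 : (ρ * β ^ 2 * u * q + 17 / 12 * ρ * β * u ^ 2 * s) ^ 2 =
        u ^ 2 * (ρ ^ 2 * (β ^ 4 * q ^ 2 + 2 * β ^ 2 * (u ^ 2 * s ^ 2))) +
        (2 * (ρ * β ^ 2 * u * q) * (17 / 12 * ρ * β * u ^ 2 * s) +
          1 / 144 * (ρ * β * u ^ 2 * s) ^ 2) := by ring
    rw [e1, hq, hs, hu]
    have e2 : 0 ≤ 2 * (ρ * β ^ 2 * u * q) * (17 / 12 * ρ * β * n * s) +
          1 / 144 * (ρ * β * n * s) ^ 2 := by positivity
    linarith
  have h4 : ρ * β ^ 2 * u * q ≤ P / 4 + ρ ^ 2 * β ^ 4 * n := by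
    rw [← hq, ← hu]
    nlinarith [sq_nonneg (q / 2 - ρ * β ^ 2 * u)]
  rw [hu] at h3
  linarith

end Pool.Agent.X246.LRS
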